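import Pool.Agent.Helper70.DK.Defs3

/-!
# Module MFINC: Minkowski dimension of sticky Kakeya sets is at least `n` minus the pattern entropy
-/

set_option autoImplicit false

namespace Pool.Agent.Helper70.DK

open Finset MeasureTheory

/-- choice of the block length -/
theorem mfinc_K (m N L b : ℕ) (h ε0 : ℝ) (hm : 1 ≤ m) (hb : 2 ≤ b) (hL : 1 ≤ L) (hN : 1 ≤ N)
    (hh : h = Real.log N / (L * Real.log b)) (hhm : h < m) (hε : 0 < ε0) : ∃ p : ℕ, 1 ≤ p ∧
    1 ≤ (b ^ (p * L) - 1) ^ m / N ^ p ∧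
    (m - (h + ε0)) * Real.log ((b ^ (p * L) : ℕ) : ℝ) ≤
      Real.log (((b ^ (p * L) - 1) ^ m / N ^ p : ℕ) : ℝ) := by
  have hb1 : (1 : ℝ) < (b : ℝ) ^ L := by
    have h1 : (1 : ℝ) < b := by exact_mod_cast hb
    exact one_lt_pow₀ h1 (by omega)
  have t1 : Filter.Tendsto (fun p : ℕ => (((b : ℝ) ^ L) ^ p)) Filter.atTop Filter.atTop :=
    tendsto_pow_atTop_atTop_of_one_lt hb1
  have t2 := (tendsto_rpow_atTop hε).comp t1
  have hmh : 0 < (m : ℝ) - h := by linarith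
  have t3 := (tendsto_rpow_atTop hmh).comp t1
  obtain ⟨p, hL1, hL2, hL4, hL3⟩ :=
    ((t1.eventually (Filter.eventually_ge_atTop (2 : ℝ))).and
      ((t2.eventually (Filter.eventually_ge_atTop (2 ^ (m + 1) : ℝ))).and
        ((t3.eventually (Filter.eventually_ge_atTop (2 ^ m : ℝ))).and
        (Filter.eventually_ge_atTop 1)))).exists
  have hcomp : ((b : ℝ) ^ L) ^ p = (b : ℝ) ^ (p * L) := by rw [← pow_mul, mul_comm]
  simp only [Function.comp] at hL2 hL4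
  rw [hcomp] at hL1 hL2 hL4
  set B : ℕ := b ^ (p * L) with hB
  have hBr : (B : ℝ) = (b : ℝ) ^ (p * L) := by rw [hB]; push_cast; ring
  rw [← hBr] at hL1 hL2 hL4
  have h2 : 2 ≤ B := by exact_mod_cast hL1
  have hB0 : (0 : ℝ) < B := by linarith
  have hlb : 0 < Real.log b := Real.log_pos (by exact_mod_cast hb)
  have hL0 : (0 : ℝ) < L := by exact_mod_cast hL
  have hN0 : (0 : ℝ) < N := by exact_mod_cast hN
  -- `N ^ p = B ^ h`
  have hNB : ((N : ℝ)) ^ p = (B : ℝ) ^ h := by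
    rw [hBr, ← Real.rpow_natCast (b : ℝ) (p * L), ← Real.rpow_mul (by positivity), hh,
      ← Real.rpow_natCast (N : ℝ) p, Real.rpow_def_of_pos hN0, Real.rpow_def_of_pos (by
        have : 0 < b := by omega
        exact_mod_cast this)]
    congr 1
    push_cast
    field_simp
  have h4 : B ^ m ≤ 2 ^ m * (B - 1) ^ m := by
    rw [← mul_pow]
    exact Nat.pow_le_pow_left (by omega) m
  have h4r : (B : ℝ) ^ m ≤ 2 ^ m * (((B - 1) ^ m : ℕ) : ℝ) := by exact_mod_cast h4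
  have hNpos : 0 < N ^ p := Nat.pow_pos (by omega)
  have hK1 : 1 ≤ (B - 1) ^ m / N ^ p := by
    rw [Nat.one_le_div_iff hNpos]
    have h5 : ((N ^ p : ℕ) : ℝ) ≤ (((B - 1) ^ m : ℕ) : ℝ) := by
      push_cast [hNB]
      have h6 : (2 : ℝ) ^ m * (B : ℝ) ^ h ≤ (B : ℝ) ^ m := by
        have h7 : (B : ℝ) ^ m = (B : ℝ) ^ ((m : ℝ) - h) * (B : ℝ) ^ h := by
          rw [← Real.rpow_add hB0, ← Real.rpow_natCast]
          congr 1
          ring
        rw [h7]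
        exact mul_le_mul_of_nonneg_right hL4 (by positivity)
      have h8 : (2 : ℝ) ^ m * (B : ℝ) ^ h ≤ 2 ^ m * (((B - 1) ^ m : ℕ) : ℝ) := h6.trans h4r
      have h9 := le_of_mul_le_mul_left h8 (by positivity)
      push_cast at h9
      exact h9
    exact_mod_cast h5
  refine ⟨p, hL3, hK1, ?_⟩
  set K : ℕ := (B - 1) ^ m / N ^ p with hK
  have h3 : (B - 1) ^ m < (K + 1) * N ^ p := by
    have := Nat.lt_div_mul_add (a := (B - 1) ^ m) hNpos
    rw [← hK] at this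
    calc _ < _ := this
      _ = _ := by ring
  have h5 : B ^ m ≤ 2 ^ (m + 1) * N ^ p * K := by
    calc B ^ m ≤ 2 ^ m * (B - 1) ^ m := h4
      _ ≤ 2 ^ m * ((K + 1) * N ^ p) := Nat.mul_le_mul_left _ h3.le
      _ ≤ 2 ^ m * ((K + K) * N ^ p) := by
          apply Nat.mul_le_mul_left
          apply Nat.mul_le_mul_right
          omega
      _ = 2 ^ (m + 1) * N ^ p * K := by ring
  have hK0 : (0 : ℝ) < K := by exact_mod_cast hK1
  have h6 : (B : ℝ) ^ m ≤ (B : ℝ) ^ (ε0 + h) * K := by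
    have h7 : ((B ^ m : ℕ) : ℝ) ≤ ((2 ^ (m + 1) * N ^ p * K : ℕ) : ℝ) := by exact_mod_cast h5
    push_cast at h7
    refine h7.trans ?_
    rw [hNB, Real.rpow_add hB0]
    exact mul_le_mul_of_nonneg_right (mul_le_mul_of_nonneg_right hL2 (by positivity)) hK0.le
  have h7 := Real.log_le_log (by positivity) h6
  rw [Real.log_pow, Real.log_mul (by positivity) hK0.ne', Real.log_rpow hB0] at h7
  rw [sub_mul]
  linarith

/-- one scale -/
theorem mfinc_scale (hAUT : ST_AUTC) (hPOW : ST_CPOW) (hVOL : ST_VOL) (hE2 : ST_E2) (hCOREM : ST_COREM)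
    (m b Lp Np : ℕ) (R ε h : ℝ) (hm : 1 ≤ m) (hb : 2 ≤ b) (hLp : 1 ≤ Lp) (hNp : 1 ≤ Np) (hR : 0 ≤ R)
    (hε : 0 < ε) (hh : h = Real.log Np / (Lp * Real.log b)) (hhm : h < m) :
    ∃ (B N0 : ℕ) (c : ℝ), 2 ≤ B ∧ 0 < c ∧ ∀ N, N0 ≤ N →
    ∀ (a : (Fin m → ℝ) → Fin m → ℝ) (E : Set (EuclideanSpace ℝ (Fin (m + 1)))), Sticky a b R →
      Cplx a b Lp Np →
      (∀ x ∈ cube m, ∀ t : ℝ, 0 ≤ t → t ≤ 1 → pt (fun c => a x c + t * x c) t ∈ E) →
      ENNReal.ofReal (c * ((B : ℝ)⁻¹ ^ N) ^ (h + ε / 2)) ≤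
        volume (Metric.thickening ((B : ℝ)⁻¹ ^ N) E) := by
  classical
  have hlb : 0 < Real.log b := Real.log_pos (by exact_mod_cast hb)
  have hh0 : 0 ≤ h := by
    rw [hh]
    exact div_nonneg (Real.log_natCast_nonneg _) (by positivity)
  obtain ⟨p, hp1, hK1, hlog⟩ := mfinc_K m Np Lp b h (ε / 4) hm hb hLp hNp hh hhm (by positivity)
  set L : ℕ := p * Lp with hLdef
  have hL1 : 1 ≤ L := Nat.mul_pos hp1 hLp
  set B : ℕ := b ^ L with hB
  set K : ℕ := (B - 1) ^ m / Np ^ p with hK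
  have hB2 : 2 ≤ B := by
    calc 2 ≤ b := hb
      _ = b ^ 1 := (pow_one b).symm
      _ ≤ b ^ L := Nat.pow_le_pow_right (by omega) hL1
  have hB0 : (0 : ℝ) < B := by
    have : 0 < B := by omega
    exact_mod_cast this
  have hBr : (B : ℝ) = (b : ℝ) ^ L := by rw [hB]; push_cast; ring
  have hR' : 0 ≤ (b : ℝ) ^ L * R := by positivity
  obtain ⟨N0, hN0⟩ := hCOREM m B ((b : ℝ) ^ L * R) (h + ε / 4) (ε / 4) hm hB2 hR' (by positivity)
    (by positivity)
  obtain ⟨c, hc, hvol⟩ := hVOL m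
  refine ⟨B, N0, c, hB2, hc, ?_⟩
  intro N hN a E hst hfp hE
  have hKr : K * Np ^ p ≤ (b ^ L - 1) ^ m := Nat.div_mul_le_self _ _
  obtain ⟨σ, hok, hseg, -, -⟩ := hAUT m b (Np ^ p) L K R a hm hb hL1 hR hK1 hKr hst
    (hPOW m b Lp Np p a hm hb hfp)
  have : Nonempty (Fin K) := ⟨⟨0, hK1⟩⟩
  have hbad := hN0 N hN (Fin K) σ hok (by rw [Fintype.card_fin]; exact hlog)
  set bad : Set ℝ := {t : ℝ | 0 ≤ t ∧ t ≤ 1 ∧
    ent (univ : Finset (Fin N → Fin K)) (fun u => fl (σ.P B t 0 N u)) <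
      (m - (h + ε / 4) - ε / 4) * N * Real.log B} with hbaddef
  set T : Set ℝ := {t : ℝ | 0 ≤ t ∧ t ≤ 1 ∧ (m - (h + ε / 4) - ε / 4) * N * Real.log B ≤
    ent (univ : Finset (Fin N → Fin K)) (fun u => fl (σ.P B t 0 N u))} with hT
  have hTI : T ⊆ Set.Icc 0 1 := fun t ht => ⟨ht.1, ht.2.1⟩
  have hTv : ENNReal.ofReal (1 / 2) ≤ volume T := by
    have h1 : Set.Icc (0 : ℝ) 1 ⊆ T ∪ bad := by
      intro t ht
      by_cases h' : ent (univ : Finset (Fin N → Fin K)) (fun u => fl (σ.P B t 0 N u)) <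
          (m - (h + ε / 4) - ε / 4) * N * Real.log B
      · exact Or.inr ⟨ht.1, ht.2, h'⟩
      · exact Or.inl ⟨ht.1, ht.2, not_lt.1 h'⟩
    have h2 : volume (Set.Icc (0 : ℝ) 1) ≤ volume T + ENNReal.ofReal (1 / 2) :=
      (measure_mono h1).trans ((measure_union_le _ _).trans (add_le_add_right hbad _))
    rw [Real.volume_Icc] at h2
    have h3 : ENNReal.ofReal (1 - 0) = ENNReal.ofReal (1 / 2) + ENNReal.ofReal (1 / 2) := by
      rw [← ENNReal.ofReal_add (by norm_num) (by norm_num)]; norm_num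
    rw [h3] at h2
    exact (ENNReal.add_le_add_iff_right ENNReal.ofReal_ne_top).1 h2
  set ρ : ℝ := (B : ℝ)⁻¹ ^ N with hρ
  have hρ0 : 0 < ρ := by positivity
  have hρ1 : ρ ≤ 1 := by
    refine pow_le_one₀ (by positivity) ?_
    rw [inv_le_one₀ hB0]
    exact_mod_cast (by omega : 1 ≤ B)
  have hρB : ρ = ((B : ℝ) ^ N)⁻¹ := by rw [hρ, inv_pow]
  set X : ℝ := Real.exp ((m - (h + ε / 4) - ε / 4) * N * Real.log B) with hX
  have key := hvol E T ρ X hρ0 hρ1 (Real.exp_pos _).le hTI hTv ?_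
  · refine le_trans (le_of_eq ?_) key
    congr 1
    have e1 : ρ = Real.exp (-(N * Real.log B)) := by
      rw [Real.exp_neg, mul_comm, Real.exp_mul, Real.exp_log hB0, Real.rpow_natCast, hρB]
    rw [mul_assoc]
    congr 1
    rw [hX, e1, ← Real.exp_nat_mul, ← Real.exp_add, ← Real.exp_mul]
    congr 1
    ring
  · intro t ht
    -- the points
    set y : (Fin N → Fin K) → Fin m → ℝ := fun u c => a 0 c + σ.P B t 0 N u c / (B : ℝ) ^ N with hy
    have hyfl : ∀ u, fl (fun c => (y u c - a 0 c) / ρ) = fl (σ.P B t 0 N u) := by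
      intro u
      congr 1
      funext c
      have hne : (B : ℝ) ^ N ≠ 0 := by positivity
      rw [hy, hρB]
      field_simp
      ring
    set Z : Finset (Fin m → ℤ) := univ.image (fun u => fl (σ.P B t 0 N u)) with hZ
    have hg : ∀ z : Fin m → ℤ, ∃ u : Fin N → Fin K, z ∈ Z → fl (σ.P B t 0 N u) = z := by
      intro z
      by_cases hz : z ∈ Z
      · obtain ⟨u, -, hu⟩ := Finset.mem_image.1 hz
        exact ⟨u, fun _ => hu⟩
      · exact ⟨fun _ => ⟨0, hK1⟩, fun h => absurd h hz⟩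
    choose g hg using hg
    refine ⟨Z.image (fun z => y (g z)), a 0, ?_, ?_, ?_⟩
    · intro y' hy'
      obtain ⟨z, -, rfl⟩ := Finset.mem_image.1 hy'
      obtain ⟨x, hx, hxe⟩ := hseg N (g z)
      have h1 : y (g z) = fun c => a x c + t * x c := by
        funext c
        rw [hxe t c, hy, hBr]
      rw [h1]
      exact hE x hx t ht.1 ht.2.1
    · intro y1 h1 y2 h2 heq
      obtain ⟨z1, hz1, rfl⟩ := Finset.mem_image.1 h1
      obtain ⟨z2, hz2, rfl⟩ := Finset.mem_image.1 h2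
      rw [hyfl, hyfl, hg z1 hz1, hg z2 hz2] at heq
      rw [heq]
    · have hinj : Set.InjOn (fun z => y (g z)) (Z : Set (Fin m → ℤ)) := by
        intro z1 hz1 z2 hz2 heq
        have h1 : y (g z1) = y (g z2) := heq
        have h2 := hyfl (g z1)
        rw [h1, hyfl (g z2), hg z1 hz1, hg z2 hz2] at h2
        exact h2.symm
      rw [Finset.card_image_of_injOn hinj]
      have h1 := hE2.2.2 (Fin N → Fin K) (Fin m → ℤ) univ (fun u => fl (σ.P B t 0 N u)) Z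
        (fun u hu => Finset.mem_image_of_mem _ hu)
      have hZ0 : (0 : ℝ) < Z.card := by
        have : 0 < Z.card := Finset.card_pos.2
          ⟨_, Finset.mem_image_of_mem _ (Finset.mem_univ (fun _ => (⟨0, hK1⟩ : Fin K)))⟩
        exact_mod_cast this
      rw [hX, ← Real.le_log_iff_exp_le hZ0]
      exact ht.2.2.trans h1

theorem st_MFINC (hAUT : ST_AUTC) (hPOW : ST_CPOW) (hVOL : ST_VOL) (hE2 : ST_E2)
    (hCOREM : ST_COREM) : ST_MFINC := by
  intro m b L Np R ε hm hb hL hNp hR hε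
  have hlb : 0 < Real.log b := Real.log_pos (by exact_mod_cast hb)
  obtain ⟨h, hh⟩ : ∃ h : ℝ, h = Real.log Np / (L * Real.log b) := ⟨_, rfl⟩
  have hh0 : 0 ≤ h := by
    rw [hh]
    exact div_nonneg (Real.log_natCast_nonneg _) (by positivity)
  rw [← hh]
  rcases lt_or_ge h (m : ℝ) with hhm | hhm
  · obtain ⟨B, N0, c, hB, hc, hsc⟩ := mfinc_scale hAUT hPOW hVOL hE2 hCOREM m b L Np R ε h hm hb hL
      hNp hR hε hh hhm
    have hB0 : (0 : ℝ) < B := by
      have : 0 < B := by omega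
      exact_mod_cast this
    have hBi1 : (B : ℝ)⁻¹ < 1 := by
      rw [inv_lt_one₀ hB0]
      exact_mod_cast (by omega : 1 < B)
    refine ⟨c * ((B : ℝ)⁻¹ ^ (N0 + 1)) ^ (h + ε / 2), by positivity, ?_⟩
    intro a E hst hfp hE δ hδ0 hδ1
    obtain ⟨n, hn1, hn2⟩ := exists_nat_pow_near_of_lt_one hδ0 hδ1.le (by positivity) hBi1
    have h1 := hsc (N0 + (n + 1)) (by omega) a E hst hfp hE
    have h2 : (B : ℝ)⁻¹ ^ (N0 + (n + 1)) ≤ δ := by
      rw [pow_add]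
      have h3 : (B : ℝ)⁻¹ ^ N0 ≤ 1 := pow_le_one₀ (by positivity) hBi1.le
      calc (B : ℝ)⁻¹ ^ N0 * (B : ℝ)⁻¹ ^ (n + 1) ≤ 1 * (B : ℝ)⁻¹ ^ (n + 1) := by gcongr
        _ = (B : ℝ)⁻¹ ^ (n + 1) := one_mul _
        _ ≤ δ := hn1.le
    refine le_trans (ENNReal.ofReal_le_ofReal ?_) (h1.trans (measure_mono
      (Metric.thickening_mono h2 E)))
    rw [mul_assoc]
    refine mul_le_mul_of_nonneg_left ?_ hc.le
    have h3 : (B : ℝ)⁻¹ ^ (N0 + 1) * δ ≤ (B : ℝ)⁻¹ ^ (N0 + (n + 1)) := by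
      have e : (B : ℝ)⁻¹ ^ (N0 + (n + 1)) = (B : ℝ)⁻¹ ^ (N0 + 1) * (B : ℝ)⁻¹ ^ n := by
        rw [← pow_add]; congr 1; ring
      rw [e]
      gcongr
    have h4 : δ ^ (h + ε) ≤ δ ^ (h + ε / 2) :=
      Real.rpow_le_rpow_of_exponent_ge hδ0 hδ1.le (by linarith)
    calc ((B : ℝ)⁻¹ ^ (N0 + 1)) ^ (h + ε / 2) * δ ^ (h + ε)
        ≤ ((B : ℝ)⁻¹ ^ (N0 + 1)) ^ (h + ε / 2) * δ ^ (h + ε / 2) := by gcongr
      _ = ((B : ℝ)⁻¹ ^ (N0 + 1) * δ) ^ (h + ε / 2) := by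
          rw [Real.mul_rpow (by positivity) hδ0.le]
      _ ≤ ((B : ℝ)⁻¹ ^ (N0 + (n + 1))) ^ (h + ε / 2) := by
          refine Real.rpow_le_rpow (by positivity) h3 (by positivity)
  · obtain ⟨c, hc, hvol⟩ := hVOL m
    refine ⟨c, hc, ?_⟩
    intro a E hst hfp hE δ hδ0 hδ1
    have h1 := hvol E (Set.Icc 0 1) δ 1 hδ0 hδ1.le zero_le_one le_rfl ?_ ?_
    · refine le_trans (ENNReal.ofReal_le_ofReal ?_) h1
      rw [mul_one]
      refine mul_le_mul_of_nonneg_left ?_ hc.le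
      rw [← Real.rpow_natCast δ m]
      exact Real.rpow_le_rpow_of_exponent_ge hδ0 hδ1.le (by linarith)
    · rw [Real.volume_Icc]
      exact ENNReal.ofReal_le_ofReal (by norm_num)
    · intro t ht
      have h0 : (0 : Fin m → ℝ) ∈ cube m := fun c => ⟨le_rfl, zero_lt_one⟩
      refine ⟨{fun c => a 0 c + t * (0 : Fin m → ℝ) c}, 0, ?_, ?_, ?_⟩
      · intro y hy
        rw [Finset.mem_singleton] at hy
        rw [hy]
        exact hE 0 h0 t ht.1 ht.2
      · intro y hy y' hy' _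
        rw [Finset.mem_singleton] at hy hy'
        rw [hy, hy']
      · rw [Finset.card_singleton]
        norm_num

end Pool.Agent.Helper70.DK
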